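import Mathlib

open Polynomial FirstOrder

namespace H28AX

theorem li_sub_inv {F D : Type} [Field F] [DivisionRing D] [Algebra F D] {x : D}
    (H : Transcendental F x) : LinearIndependent F fun a ↦ (x - algebraMap F D a)⁻¹ := by
  classical
  rw [transcendental_iff] at H
  rw [linearIndependent_iff']
  intro s m hm i hi
  have hnz : ∀ a : F, x - algebraMap F D a ≠ 0 := by
    intro a h
    apply X_sub_C_ne_zero a
    apply H
    simp [h]
  have h1 : ∀ j ∈ s, (aeval x (∏ l ∈ s, (X - C l : F[X]))) * (m j • (x - algebraMap F D j)⁻¹) =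
      aeval x (C (m j) * ∏ l ∈ s.erase j, (X - C l : F[X])) := by
    intro j hj
    rw [← s.prod_erase_mul _ hj, map_mul, map_mul]
    have h2 : aeval x (X - C j : F[X]) = x - algebraMap F D j := by simp
    rw [h2, mul_smul_comm, mul_assoc, mul_inv_cancel₀ (hnz j), mul_one, aeval_C, Algebra.smul_def]
  have h3 : aeval x (∑ j ∈ s, C (m j) * ∏ l ∈ s.erase j, (X - C l : F[X])) = 0 := by
    rw [map_sum, ← Finset.sum_congr rfl h1, ← Finset.mul_sum, hm, mul_zero]
  have hp := H _ h3
  have h4 := congrArg (fun q => eval i q) hp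
  simp only [eval_finsetSum, eval_mul, eval_C, eval_prod, eval_sub, eval_X, eval_zero] at h4
  rw [Finset.sum_eq_single i] at h4
  · refine (mul_eq_zero.1 h4).resolve_right ?_
    exact Finset.prod_ne_zero_iff.2 fun j hj ↦ sub_ne_zero.2 (Finset.ne_of_mem_erase hj).symm
  · intro j _ hji
    rw [Finset.prod_eq_zero (i := i) (Finset.mem_erase.2 ⟨fun h => hji h.symm, hi⟩) (sub_self i), mul_zero]
  · intro h; exact absurd hi h

/-- PART A0 (Amitsur): division ring generated over central C by a countable set is commutative -/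
theorem comm_of_countable (D : Type) [DivisionRing D] (k : ℂ →+* D)
    (hk : ∀ z d, k z * d = d * k z) (S : Set D) (hS : S.Countable)
    (hgen : ∀ d : D, d ∈ Subring.closure (Set.range k ∪ S)) (x y : D) : x * y = y * x := by
  let _ : Algebra ℂ D := RingHom.toAlgebra' k hk
  have hmap : ∀ z, algebraMap ℂ D z = k z := fun z => rfl
  have htop : Algebra.adjoin ℂ S = ⊤ := by
    rw [eq_top_iff]
    intro d _
    have h1 : Subring.closure (Set.range k ∪ S) ≤ (Algebra.adjoin ℂ S).toSubring := by
      rw [Subring.closure_le]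
      rintro z (⟨w, rfl⟩ | hz)
      · rw [← hmap]
        exact (Algebra.adjoin ℂ S).algebraMap_mem w
      · exact Algebra.subset_adjoin hz
    exact h1 (hgen d)
  have hrank : Module.rank ℂ D ≤ Cardinal.aleph0 := by
    have h1 := Algebra.rank_adjoin_le (R := ℂ) S
    rw [htop] at h1
    have h2 : Module.rank ℂ (⊤ : Subalgebra ℂ D) = Module.rank ℂ D :=
      (Subalgebra.topEquiv (R := ℂ) (A := D)).toLinearEquiv.rank_eq
    rw [h2] at h1
    refine h1.trans (max_le ?_ le_rfl)
    exact Cardinal.mk_le_aleph0_iff.2 hS.to_subtype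
  have hint : Algebra.IsIntegral ℂ D := by
    constructor
    intro d
    by_contra hd
    have ht : Transcendental ℂ d := fun h => hd h.isIntegral
    have h1 := (li_sub_inv ht).cardinal_le_rank
    have h2 : Cardinal.mk ℂ ≤ Cardinal.aleph0 := h1.trans hrank
    rw [Cardinal.mk_complex] at h2
    exact absurd h2 (not_le.2 Cardinal.aleph0_lt_continuum)
  have hbij := IsAlgClosed.algebraMap_bijective_of_isIntegral (k := ℂ) (K := D)
  obtain ⟨a, rfl⟩ := hbij.2 x
  exact Algebra.commutes a y

end H28AX
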