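import Mathlib

set_option autoImplicit false

open Polynomial

namespace H28AX

theorem anis_u (a b : Polynomial ℂ) (h : a ^ 2 - X * b ^ 2 = 0) : a = 0 ∧ b = 0 := by
  have h' : a ^ 2 = X * b ^ 2 := sub_eq_zero.1 h
  by_cases hb : b = 0
  · subst hb
    refine ⟨?_, rfl⟩
    simpa using h'
  · exfalso
    have h1 := congrArg Polynomial.natDegree h'
    rw [Polynomial.natDegree_pow, Polynomial.natDegree_X_mul (pow_ne_zero 2 hb),
      Polynomial.natDegree_pow] at h1
    omega

theorem deg_D (x y : Polynomial (Polynomial ℂ)) (hxy : ¬ (x = 0 ∧ y = 0)) :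
    x ^ 2 - C X * y ^ 2 ≠ 0 ∧ ∃ n, (x ^ 2 - C X * y ^ 2).natDegree = 2 * n := by
  set n := max x.natDegree y.natDegree with hn
  have hx : x.natDegree ≤ n := le_max_left _ _
  have hy : y.natDegree ≤ n := le_max_right _ _
  have hc : (x ^ 2 - C X * y ^ 2).coeff (2 * n) = x.coeff n ^ 2 - X * y.coeff n ^ 2 := by
    rw [Polynomial.coeff_sub, Polynomial.coeff_C_mul, Polynomial.coeff_pow_of_natDegree_le hx,
      Polynomial.coeff_pow_of_natDegree_le hy]
  have hne : (x ^ 2 - C X * y ^ 2).coeff (2 * n) ≠ 0 := by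
    rw [hc]
    intro h0
    obtain ⟨ha, hb⟩ := anis_u _ _ h0
    apply hxy
    rcases le_total x.natDegree y.natDegree with hle | hle
    · have e : n = y.natDegree := max_eq_right hle
      rw [e] at hb
      have hy0 : y = 0 := Polynomial.leadingCoeff_eq_zero.1 hb
      subst hy0
      rw [e] at ha
      simp only [Polynomial.natDegree_zero, nonpos_iff_eq_zero] at hle ha
      refine ⟨?_, rfl⟩
      rw [Polynomial.eq_C_of_natDegree_eq_zero hle, ha, map_zero]
    · have e : n = x.natDegree := max_eq_left hle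
      rw [e] at ha
      have hx0 : x = 0 := Polynomial.leadingCoeff_eq_zero.1 ha
      subst hx0
      rw [e] at hb
      simp only [Polynomial.natDegree_zero, nonpos_iff_eq_zero] at hle hb
      refine ⟨rfl, ?_⟩
      rw [Polynomial.eq_C_of_natDegree_eq_zero hle, hb, map_zero]
  refine ⟨fun h => hne (by rw [h, Polynomial.coeff_zero]), n, le_antisymm ?_
    (Polynomial.le_natDegree_of_ne_zero hne)⟩
  refine (Polynomial.natDegree_sub_le _ _).trans (max_le ?_ ?_)
  · refine Polynomial.natDegree_pow_le.trans ?_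
    gcongr
  · refine (Polynomial.natDegree_C_mul_le _ _).trans (Polynomial.natDegree_pow_le.trans ?_)
    gcongr

/-- PART B1 -/
theorem anis_B (x y z w : Polynomial (Polynomial ℂ))
    (h : x ^ 2 - C X * y ^ 2 - X * z ^ 2 + C X * X * w ^ 2 = 0) :
    x = 0 ∧ y = 0 ∧ z = 0 ∧ w = 0 := by
  have h1 : x ^ 2 - C X * y ^ 2 = X * (z ^ 2 - C X * w ^ 2) := by
    linear_combination h
  by_cases hzw : z = 0 ∧ w = 0
  · obtain ⟨rfl, rfl⟩ := hzw
    by_cases hxy : x = 0 ∧ y = 0
    · exact ⟨hxy.1, hxy.2, rfl, rfl⟩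
    · exact absurd (by simpa using h1) (deg_D x y hxy).1
  · exfalso
    obtain ⟨hne, m, hm⟩ := deg_D z w hzw
    have hX : (X * (z ^ 2 - C X * w ^ 2)).natDegree = 2 * m + 1 := by
      rw [Polynomial.natDegree_X_mul hne, hm]
    by_cases hxy : x = 0 ∧ y = 0
    · obtain ⟨rfl, rfl⟩ := hxy
      have h2 : X * (z ^ 2 - C X * w ^ 2) = 0 := by rw [← h1]; simp
      exact mul_ne_zero Polynomial.X_ne_zero hne h2
    · obtain ⟨_, n, hn⟩ := deg_D x y hxy
      rw [h1, hX] at hn
      omega

end H28AX
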