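import Mathlib

set_option autoImplicit false

namespace H28AX

/-- PART B2 -/
theorem unit_of_anis {L : Type} [Field L] (a c : L)
    (h : ∀ x y z w : L, x ^ 2 - a * y ^ 2 - c * z ^ 2 + a * c * w ^ 2 = 0 →
      x = 0 ∧ y = 0 ∧ z = 0 ∧ w = 0) (q : QuaternionAlgebra L a 0 c) (hq : q ≠ 0) :
    ∃ r : QuaternionAlgebra L a 0 c, q * r = 1 ∧ r * q = 1 := by
  obtain ⟨x, y, z, w⟩ := q
  have hN : x ^ 2 - a * y ^ 2 - c * z ^ 2 + a * c * w ^ 2 ≠ 0 := by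
    intro h0
    obtain ⟨rfl, rfl, rfl, rfl⟩ := h x y z w h0
    exact hq rfl
  set N := x ^ 2 - a * y ^ 2 - c * z ^ 2 + a * c * w ^ 2 with hNdef
  refine ⟨⟨x / N, -y / N, -z / N, -w / N⟩, ?_, ?_⟩
  · ext <;> simp <;> field_simp <;> (try rw [hNdef]) <;> ring
  · ext <;> simp <;> field_simp <;> (try rw [hNdef]) <;> ring

end H28AX
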