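import Mathlib

open Polynomial Cardinal

namespace H28AX

lemma card_le : #(FractionRing (MvPolynomial ℂ (Polynomial (Polynomial ℂ)))) ≤ #ℂ := by
  have h1 : #(Polynomial ℂ) ≤ #ℂ := by
    refine Polynomial.cardinalMk_le_max.trans (max_le le_rfl (aleph0_le_mk ℂ))
  have h2 : #(Polynomial (Polynomial ℂ)) ≤ #ℂ := by
    refine Polynomial.cardinalMk_le_max.trans (max_le h1 (aleph0_le_mk ℂ))
  have h3 : #(MvPolynomial ℂ (Polynomial (Polynomial ℂ))) ≤ #ℂ := by
    refine MvPolynomial.cardinalMk_le_max.trans (max_le (max_le h2 le_rfl) (aleph0_le_mk ℂ))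
  rw [Cardinal.mk_fractionRing]
  exact h3

/-- PART B3 -/
theorem exists_surj (V : Finset ℂ) :
    ∃ g : ℂ → FractionRing (MvPolynomial ℂ (Polynomial (Polynomial ℂ))),
      (∀ y ∈ V, g y = algebraMap (MvPolynomial ℂ (Polynomial (Polynomial ℂ))) _ (MvPolynomial.X y)) ∧
      Function.Surjective g := by
  classical
  have h1 : #(FractionRing (MvPolynomial ℂ (Polynomial (Polynomial ℂ)))) ≤
      #(((V : Set ℂ)ᶜ : Set ℂ)) := by
    rw [Cardinal.mk_compl_finset_of_infinite]
    exact card_le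
  obtain ⟨j⟩ := Cardinal.le_def _ _ |>.1 h1
  have hs := Function.invFun_surjective j.injective
  refine ⟨fun y => if h : y ∈ V then algebraMap (MvPolynomial ℂ (Polynomial (Polynomial ℂ))) _
    (MvPolynomial.X y) else Function.invFun j ⟨y, by simpa using h⟩, ?_, ?_⟩
  · intro y hy
    simp only [hy, dite_true]
  · intro z
    obtain ⟨⟨y, hy⟩, hyz⟩ := hs z
    refine ⟨y, ?_⟩
    have hy' : y ∉ V := by simpa using hy
    simp only [hy', dite_false]
    exact hyz

end H28AX
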