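import Mathlib

open Polynomial FirstOrder

namespace H28AX

theorem anis_poly (hB : ∀ x y z w : Polynomial (Polynomial ℂ),
      x ^ 2 - C X * y ^ 2 - X * z ^ 2 + C X * X * w ^ 2 = 0 → x = 0 ∧ y = 0 ∧ z = 0 ∧ w = 0)
    (x y z w : MvPolynomial ℂ (Polynomial (Polynomial ℂ)))
    (h : x ^ 2 - (MvPolynomial.C (C X) : MvPolynomial ℂ (Polynomial (Polynomial ℂ))) * y ^ 2
      - (MvPolynomial.C X : MvPolynomial ℂ (Polynomial (Polynomial ℂ))) * z ^ 2
      + (MvPolynomial.C (C X) : MvPolynomial ℂ (Polynomial (Polynomial ℂ))) *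
        (MvPolynomial.C X : MvPolynomial ℂ (Polynomial (Polynomial ℂ))) * w ^ 2 = 0) :
    x = 0 ∧ y = 0 ∧ z = 0 ∧ w = 0 := by
  have key : ∀ f : ℂ → Polynomial (Polynomial ℂ), MvPolynomial.eval f x = 0 ∧
      MvPolynomial.eval f y = 0 ∧ MvPolynomial.eval f z = 0 ∧ MvPolynomial.eval f w = 0 := by
    intro f
    apply hB
    have h1 := congrArg (MvPolynomial.eval f) h
    simp only [map_add, map_sub, map_mul, map_pow, map_zero, MvPolynomial.eval_C] at h1
    exact h1
  refine ⟨MvPolynomial.funext fun f => ?_, MvPolynomial.funext fun f => ?_,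
    MvPolynomial.funext fun f => ?_, MvPolynomial.funext fun f => ?_⟩
  · rw [(key f).1, map_zero]
  · rw [(key f).2.1, map_zero]
  · rw [(key f).2.2.1, map_zero]
  · rw [(key f).2.2.2, map_zero]

theorem frac_gen (R L : Type) [CommRing R] [IsDomain R] [Field L] [Algebra R L]
    [IsFractionRing R L] (a c : R)
    (hR : ∀ x y z w : R, x ^ 2 - a * y ^ 2 - c * z ^ 2 + a * c * w ^ 2 = 0 →
      x = 0 ∧ y = 0 ∧ z = 0 ∧ w = 0)
    (x y z w : L)
    (h : x ^ 2 - algebraMap R L a * y ^ 2 - algebraMap R L c * z ^ 2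
      + algebraMap R L a * algebraMap R L c * w ^ 2 = 0) :
    x = 0 ∧ y = 0 ∧ z = 0 ∧ w = 0 := by
  classical
  obtain ⟨d, hd⟩ := IsLocalization.exist_integer_multiples_of_finset
    (nonZeroDivisors R) ({x, y, z, w} : Finset L)
  obtain ⟨x', hx⟩ := hd x (by simp)
  obtain ⟨y', hy⟩ := hd y (by simp)
  obtain ⟨z', hz⟩ := hd z (by simp)
  obtain ⟨w', hw⟩ := hd w (by simp)
  have hinj : Function.Injective (algebraMap R L) := IsFractionRing.injective R L
  have hd0 : algebraMap R L (d : R) ≠ 0 := by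
    intro h0
    rw [← map_zero (algebraMap R L)] at h0
    exact nonZeroDivisors.coe_ne_zero d (hinj h0)
  rw [Algebra.smul_def] at hx hy hz hw
  have hmain := hR x' y' z' w' (by
    apply hinj
    simp only [map_add, map_sub, map_mul, map_pow, map_zero]
    rw [hx, hy, hz, hw]
    linear_combination (algebraMap R L (d : R)) ^ 2 * h)
  obtain ⟨h1, h2, h3, h4⟩ := hmain
  rw [h1, map_zero] at hx
  rw [h2, map_zero] at hy
  rw [h3, map_zero] at hz
  rw [h4, map_zero] at hw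
  exact ⟨(mul_eq_zero.mp hx.symm).resolve_left hd0, (mul_eq_zero.mp hy.symm).resolve_left hd0,
    (mul_eq_zero.mp hz.symm).resolve_left hd0, (mul_eq_zero.mp hw.symm).resolve_left hd0⟩

/-- PART B4: from B to the fraction field of B[Y] -/
theorem anis_frac (hB : ∀ x y z w : Polynomial (Polynomial ℂ),
      x ^ 2 - C X * y ^ 2 - X * z ^ 2 + C X * X * w ^ 2 = 0 → x = 0 ∧ y = 0 ∧ z = 0 ∧ w = 0)
    (x y z w : FractionRing (MvPolynomial ℂ (Polynomial (Polynomial ℂ))))
    (h : x ^ 2 - algebraMap _ _ (MvPolynomial.C (C X) : MvPolynomial ℂ (Polynomial (Polynomial ℂ))) * y ^ 2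
      - algebraMap _ _ (MvPolynomial.C X : MvPolynomial ℂ (Polynomial (Polynomial ℂ))) * z ^ 2
      + algebraMap _ _ (MvPolynomial.C (C X) : MvPolynomial ℂ (Polynomial (Polynomial ℂ))) *
        algebraMap _ _ (MvPolynomial.C X : MvPolynomial ℂ (Polynomial (Polynomial ℂ))) * w ^ 2 = 0) :
    x = 0 ∧ y = 0 ∧ z = 0 ∧ w = 0 :=
  frac_gen (MvPolynomial ℂ (Polynomial (Polynomial ℂ)))
    (FractionRing (MvPolynomial ℂ (Polynomial (Polynomial ℂ)))) (MvPolynomial.C (C X))
    (MvPolynomial.C X) (fun x y z w h => anis_poly hB x y z w h) x y z w h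

end H28AX
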