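import Mathlib

open Polynomial FirstOrder

namespace H28AX

open FirstOrder.Language in
/-- PART C1: Tarski-Vaught with automorphisms -/
theorem elem_equiv {L : FirstOrder.Language.{0,0}} {M N : Type} [L.Structure M] [L.Structure N] (f : M ↪[L] N)
    (h : ∀ (s : Finset M) (a : N), ∃ σ : N ≃[L] N, (∀ m ∈ s, σ (f m) = f m) ∧ ∃ b : M, σ a = f b)
    (T : L.Theory) : M ⊨ T ↔ N ⊨ T := by
  classical
  let g : M ↪ₑ[L] N := f.toElementaryEmbedding (by
    intro n φ x a ha
    obtain ⟨σ, hσ, b, hb⟩ := h (Finset.univ.image x) a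
    refine ⟨b, ?_⟩
    have h1 : (σ ∘ (Fin.snoc (f ∘ x) a : Fin (n+1) → N)) = (Fin.snoc (f ∘ x) (f b) : Fin (n+1) → N) := by
      funext i
      refine Fin.lastCases ?_ (fun j => ?_) i
      · simp [hb]
      · simp only [Function.comp_apply, Fin.snoc_castSucc]
        exact hσ (x j) (Finset.mem_image_of_mem x (Finset.mem_univ j))
    rw [← h1]
    have h2 := FirstOrder.Language.StrongHomClass.realize_boundedFormula σ φ (v := (default : Empty → N)) (xs := (Fin.snoc (f ∘ x) a : Fin (n+1) → N))
    have h3 : (σ ∘ (default : Empty → N)) = default := Subsingleton.elim _ _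
    rw [h3] at h2
    exact h2.2 ha)
  exact g.theory_model_iff T

end H28AX
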