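import Mathlib

namespace H28AX

/-- PART C2 -/
theorem exists_perm {Y : Type} (e : ℕ → Y) (he : Function.Injective e) (S : Finset ℕ) (T : Finset Y) :
    ∃ π : Equiv.Perm Y, (∀ n ∈ S, π (e n) = e n) ∧ ∀ t ∈ T, π t ∈ Set.range e := by
  classical
  induction T using Finset.induction_on with
  | empty => exact ⟨1, by simp, by simp⟩
  | insert t T ht ih =>
    obtain ⟨π, h1, h2⟩ := ih
    by_cases hr : π t ∈ Set.range e
    · refine ⟨π, h1, fun s hs => ?_⟩
      rcases Finset.mem_insert.1 hs with rfl | hs
      · exact hr
      · exact h2 s hs
    · -- choose a fresh index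
      obtain ⟨m, hm⟩ := Infinite.exists_notMem_finset ((T.image π).preimage e he.injOn ∪ S)
      rw [Finset.mem_union, Finset.mem_preimage, not_or] at hm
      refine ⟨π.trans (Equiv.swap (π t) (e m)), ?_, ?_⟩
      · intro n hn
        rw [Equiv.trans_apply, h1 n hn]
        apply Equiv.swap_apply_of_ne_of_ne
        · intro h
          exact hr ⟨n, h⟩
        · intro h
          have := he h
          rw [← this] at hm
          exact hm.2 hn
      · intro s hs
        rcases Finset.mem_insert.1 hs with rfl | hs
        · rw [Equiv.trans_apply, Equiv.swap_apply_left]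
          exact ⟨m, rfl⟩
        · rw [Equiv.trans_apply, Equiv.swap_apply_of_ne_of_ne]
          · exact h2 s hs
          · intro h
            rw [π.injective h] at hs
            exact ht hs
          · intro h
            exact hm.1 (Finset.mem_image.2 ⟨s, hs, h⟩)

end H28AX
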