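import Mathlib

open FirstOrder

namespace Pool.Agent.MP_c671ed_lc

/-- A (unital) ring `R` is a subdirect product of division rings: there are a family of division
rings `D i` and an injective (unital) ring homomorphism `R → ∏ i, D i` all of whose components
`R → D i` are surjective. -/
def IsSubdirectDiv (R : Type) [Ring R] : Prop :=
  ∃ (I : Type) (D : I → Type) (_ : ∀ i, DivisionRing (D i)) (φ : R →+* ((i : I) → D i)),
    Function.Injective φ ∧ ∀ i, Function.Surjective fun r => φ r i

/-- The same for not necessarily unital rings and not necessarily unital homomorphisms. -/
def IsSubdirectDivNU (R : Type) [NonUnitalRing R] : Prop :=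
  ∃ (I : Type) (D : I → Type) (_ : ∀ i, DivisionRing (D i)) (φ : R →ₙ+* ((i : I) → D i)),
    Function.Injective φ ∧ ∀ i, Function.Surjective fun r => φ r i

/-- function symbols of the language of rings without a symbol for 1 -/
inductive RngFunc : ℕ → Type
  | add : RngFunc 2
  | mul : RngFunc 2
  | neg : RngFunc 1
  | zero : RngFunc 0

/-- the first-order language `(+, *, -, 0)` of not necessarily unital rings -/
def rngLang : FirstOrder.Language.{0, 0} :=
  { Functions := RngFunc
    Relations := fun _ => Empty }

/-- a ring as a structure for the language `(+, *, -, 0)` -/
@[instance_reducible]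
def rngStr (R : Type) [NonUnitalRing R] : rngLang.Structure R where
  funMap := fun {n} f =>
    match n, f with
    | _, .add => fun x => x 0 + x 1
    | _, .mul => fun x => x 0 * x 1
    | _, .neg => fun x => - x 0
    | _, .zero => fun _ => 0
  RelMap := fun {_} r => r.elim

end Pool.Agent.MP_c671ed_lc
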