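import Mathlib
import Pool.Agent.H28.AX.Defs
import Pool.Agent.H28.AX.A0
import Pool.Agent.H28.AX.B1
import Pool.Agent.H28.AX.B2
import Pool.Agent.H28.AX.B3
import Pool.Agent.H28.AX.B4
import Pool.Agent.H28.AX.C1
import Pool.Agent.H28.AX.C2

open Polynomial FirstOrder

namespace Pool.Agent.MP_c671ed_lc

open H28AX

/-! ### The rings -/

abbrev B : Type := Polynomial (Polynomial ℂ)
noncomputable abbrev uB : B := C X
noncomputable abbrev vB : B := X
abbrev P (Y : Type) : Type := MvPolynomial Y B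
abbrev A (Y : Type) : Type := QuaternionAlgebra (P Y) (MvPolynomial.C uB) 0 (MvPolynomial.C vB)

def mapQ {R S : Type} [CommRing R] [CommRing S] (g : R →+* S) {a c : R} {a' c' : S}
    (ha : g a = a') (hc : g c = c') :
    QuaternionAlgebra R a 0 c →+* QuaternionAlgebra S a' 0 c' where
  toFun q := ⟨g q.re, g q.imI, g q.imJ, g q.imK⟩
  map_one' := by ext <;> simp
  map_zero' := by ext <;> simp
  map_mul' p q := by ext <;> simp [ha, hc]
  map_add' p q := by ext <;> simp

noncomputable def mapA {Y Z : Type} (f : Y → Z) : A Y →+* A Z :=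
  mapQ (R := P Y) (S := P Z) (a := MvPolynomial.C uB) (c := MvPolynomial.C vB)
    (a' := MvPolynomial.C uB) (c' := MvPolynomial.C vB)
    ((MvPolynomial.rename f : P Y →ₐ[B] P Z) : P Y →+* P Z)
    (MvPolynomial.rename_C f uB) (MvPolynomial.rename_C f vB)

theorem mapA_apply {Y Z : Type} (f : Y → Z) (q : A Y) :
    mapA f q = ⟨MvPolynomial.rename f q.re, MvPolynomial.rename f q.imI,
      MvPolynomial.rename f q.imJ, MvPolynomial.rename f q.imK⟩ := rfl

theorem mapA_comp {X Y Z : Type} (f : X → Y) (g : Y → Z) (q : A X) :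
    mapA g (mapA f q) = mapA (g ∘ f) q := by
  simp only [mapA_apply, MvPolynomial.rename_rename]

theorem mapA_id {X : Type} (q : A X) : mapA (id : X → X) q = q := by
  simp only [mapA_apply, MvPolynomial.rename_id, AlgHom.id_apply]

theorem mapA_inj {X Y : Type} (f : X → Y) (hf : Function.Injective f) :
    Function.Injective (mapA f) := by
  intro p q h
  simp only [mapA_apply] at h
  have := MvPolynomial.rename_injective (R := B) f hf
  injection h with h1 h2 h3 h4
  ext1
  · exact this h1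
  · exact this h2
  · exact this h3
  · exact this h4

theorem mem_supp {Y : Type} (q : A Y) : ∃ (V : Finset Y) (q' : A {x // x ∈ V}),
    q = mapA (fun x : {x // x ∈ V} => (x : Y)) q' := by
  classical
  obtain ⟨V1, p1, h1⟩ := MvPolynomial.exists_finset_rename q.re
  obtain ⟨V2, p2, h2⟩ := MvPolynomial.exists_finset_rename q.imI
  obtain ⟨V3, p3, h3⟩ := MvPolynomial.exists_finset_rename q.imJ
  obtain ⟨V4, p4, h4⟩ := MvPolynomial.exists_finset_rename q.imK
  refine ⟨V1 ∪ V2 ∪ V3 ∪ V4,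
    ⟨MvPolynomial.rename (fun x => ⟨x.1, by have := x.2; simp [this]⟩) p1,
     MvPolynomial.rename (fun x => ⟨x.1, by have := x.2; simp [this]⟩) p2,
     MvPolynomial.rename (fun x => ⟨x.1, by have := x.2; simp [this]⟩) p3,
     MvPolynomial.rename (fun x => ⟨x.1, by have := x.2; simp [this]⟩) p4⟩, ?_⟩
  simp only [mapA_apply, MvPolynomial.rename_rename]
  ext1
  · exact h1
  · exact h2
  · exact h3
  · exact h4

noncomputable def autA {Y : Type} (π : Equiv.Perm Y) : A Y ≃+* A Y :=
  RingEquiv.ofRingHom (mapA π) (mapA π.symm)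
    (by ext1 q; simp only [RingHom.comp_apply, mapA_comp, RingHom.id_apply]
        rw [show (⇑π ∘ ⇑π.symm) = id from by ext; simp]; exact mapA_id q)
    (by ext1 q; simp only [RingHom.comp_apply, mapA_comp, RingHom.id_apply]
        rw [show (⇑π.symm ∘ ⇑π) = id from by ext; simp]; exact mapA_id q)

theorem autA_apply {Y : Type} (π : Equiv.Perm Y) (q : A Y) : autA π q = mapA π q := rfl

theorem exists_aut {Y : Type} (e : ℕ → Y) (he : Function.Injective e) (s : Finset (A ℕ)) (a : A Y) :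
    ∃ σ : A Y ≃+* A Y, (∀ m ∈ s, σ (mapA e m) = mapA e m) ∧ ∃ b : A ℕ, σ a = mapA e b := by
  classical
  choose V q' hq' using fun q : A ℕ => mem_supp q
  obtain ⟨T, a', ha'⟩ := mem_supp a
  obtain ⟨π, h1, h2⟩ := exists_perm e he (s.biUnion V) T
  refine ⟨autA π, fun m hm => ?_, ?_⟩
  · have key : (⇑π ∘ e ∘ fun x : {x // x ∈ V m} => (x : ℕ)) = e ∘ fun x : {x // x ∈ V m} => (x : ℕ) := by
      funext x
      exact h1 x.1 (Finset.mem_biUnion.2 ⟨m, hm, x.2⟩)
    rw [autA_apply, hq' m, mapA_comp, mapA_comp, Function.comp_assoc, key, mapA_comp]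
  · choose h hh using h2
    refine ⟨mapA (fun x => h x.1 x.2) a', ?_⟩
    have key : (⇑π ∘ fun x : {x // x ∈ T} => (x : Y)) = e ∘ fun x : {x // x ∈ T} => h x.1 x.2 := by
      funext x
      exact (hh x.1 x.2).symm
    rw [autA_apply, ha', mapA_comp, mapA_comp, key]

noncomputable def cP (Y : Type) : P Y →+* A Y := algebraMap (P Y) (A Y)
noncomputable def cB (Y : Type) : B →+* A Y := (cP Y).comp MvPolynomial.C
noncomputable def cC (Y : Type) : ℂ →+* A Y := ((cB Y).comp (Polynomial.C)).comp (Polynomial.C)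
noncomputable def eI (Y : Type) : A Y := ⟨0, 1, 0, 0⟩
noncomputable def eJ (Y : Type) : A Y := ⟨0, 0, 1, 0⟩
noncomputable def eK (Y : Type) : A Y := ⟨0, 0, 0, 1⟩

theorem cP_apply (Y : Type) (p : P Y) : cP Y p = ⟨p, 0, 0, 0⟩ := rfl

theorem eI_mul_eJ (Y : Type) : eI Y * eJ Y = eK Y := by
  apply QuaternionAlgebra.ext <;> simp [eI, eJ, eK]
theorem eJ_mul_eI (Y : Type) : eJ Y * eI Y = - eK Y := by
  apply QuaternionAlgebra.ext <;> simp [eI, eJ, eK] <;> ring

noncomputable def gens : Set (A ℕ) :=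
  {eI ℕ, eJ ℕ, cB ℕ uB, cB ℕ vB} ∪ Set.range fun n : ℕ => cP ℕ (MvPolynomial.X n)

theorem gens_countable : (gens).Countable := by
  unfold gens
  refine Set.Countable.union ?_ (Set.countable_range _)
  exact (Set.toFinite _).countable

theorem mem_closure (q : A ℕ) : q ∈ Subring.closure (Set.range (cC ℕ) ∪ gens) := by
  set W := Subring.closure (Set.range (cC ℕ) ∪ gens) with hW
  have hC : ∀ z, cC ℕ z ∈ W := fun z => Subring.subset_closure (Or.inl ⟨z, rfl⟩)
  have hg : ∀ g ∈ gens, g ∈ W := fun g h => Subring.subset_closure (Or.inr h)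
  have hI : eI ℕ ∈ W := hg _ (Or.inl (by simp))
  have hJ : eJ ℕ ∈ W := hg _ (Or.inl (by simp))
  have hu : cB ℕ uB ∈ W := hg _ (Or.inl (by simp))
  have hv : cB ℕ vB ∈ W := hg _ (Or.inl (by simp))
  have hX : ∀ n, cP ℕ (MvPolynomial.X n) ∈ W := fun n => hg _ (Or.inr ⟨n, rfl⟩)
  have h1 : ∀ p : Polynomial ℂ, cB ℕ (C p) ∈ W := by
    intro p
    induction p using Polynomial.induction_on' with
    | add p q hp hq => rw [map_add, map_add]; exact W.add_mem hp hq
    | monomial n a =>
      rw [← Polynomial.C_mul_X_pow_eq_monomial, map_mul, map_pow, map_mul, map_pow]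
      exact W.mul_mem (hC a) (W.pow_mem hu n)
  have h2 : ∀ b : B, cB ℕ b ∈ W := by
    intro p
    induction p using Polynomial.induction_on' with
    | add p q hp hq => rw [map_add]; exact W.add_mem hp hq
    | monomial n a =>
      rw [← Polynomial.C_mul_X_pow_eq_monomial, map_mul, map_pow]
      exact W.mul_mem (h1 a) (W.pow_mem hv n)
  have h3 : ∀ p : P ℕ, cP ℕ p ∈ W := by
    intro p
    induction p using MvPolynomial.induction_on with
    | C b => exact h2 b
    | add p q hp hq => rw [map_add]; exact W.add_mem hp hq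
    | mul_X p n hp => rw [map_mul]; exact W.mul_mem hp (hX n)
  have hq : q = cP ℕ q.re + cP ℕ q.imI * eI ℕ + cP ℕ q.imJ * eJ ℕ + cP ℕ q.imK * (eI ℕ * eJ ℕ) := by
    simp only [cP_apply]
    apply QuaternionAlgebra.ext <;> simp [eI, eJ] <;> ring
  rw [hq]
  exact W.add_mem (W.add_mem (W.add_mem (h3 _) (W.mul_mem (h3 _) hI)) (W.mul_mem (h3 _) hJ))
    (W.mul_mem (h3 _) (W.mul_mem hI hJ))

theorem cC_central (z : ℂ) (q : A ℕ) : cC ℕ z * q = q * cC ℕ z :=
  Algebra.commutes _ _

theorem image_comm (D : Type) [DivisionRing D] (ψ : A ℕ →+* D) (hψ : Function.Surjective ψ) :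
    ψ (eK ℕ) = 0 := by
  have hcomm := comm_of_countable D (ψ.comp (cC ℕ)) (by
    intro z d
    obtain ⟨q, rfl⟩ := hψ d
    rw [RingHom.comp_apply, ← map_mul, ← map_mul, cC_central]) (ψ '' gens)
    (gens_countable.image _) (by
    intro d
    obtain ⟨q, rfl⟩ := hψ d
    have h := mem_closure q
    have h2 : ψ q ∈ (Subring.closure (Set.range (cC ℕ) ∪ gens)).map ψ := ⟨q, h, rfl⟩
    rw [RingHom.map_closure, Set.image_union] at h2
    rw [RingHom.coe_comp, Set.range_comp]
    exact h2)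
  have h := hcomm (ψ (eI ℕ)) (ψ (eJ ℕ))
  rw [← map_mul, ← map_mul, eI_mul_eJ, eJ_mul_eI] at h
  have h : ψ (eK ℕ) = - ψ (eK ℕ) := h.trans (map_neg ψ (eK ℕ))
  have h2 : ψ (cC ℕ 2) * ψ (eK ℕ) = 0 := by
    rw [map_ofNat, map_ofNat, two_mul]
    nth_rewrite 1 [h]
    simp
  rcases mul_eq_zero.1 h2 with h3 | h3
  · exfalso
    have h4 : ψ (cC ℕ 2) * ψ (cC ℕ (1/2)) = 0 := by rw [h3, zero_mul]
    rw [← map_mul, ← map_mul] at h4
    norm_num at h4
  · exact h3

theorem bad_NU : ¬ IsSubdirectDivNU (A ℕ) := by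
  rintro ⟨I, D, inst, φ, hinj, hsurj⟩
  have hK : eK ℕ ≠ 0 := by
    intro h
    have := congrArg QuaternionAlgebra.imK h
    simp [eK] at this
  apply hK
  apply hinj
  rw [map_zero]
  funext i
  have h1 : φ 1 i = 1 := by
    obtain ⟨r, hr⟩ := hsurj i 1
    have e1 : φ (r * 1) = φ r := congrArg φ (mul_one r)
    have e2 : φ (r * 1) = φ r * φ 1 := map_mul φ r 1
    have this : φ r i = φ r i * φ 1 i := congrFun (e1.symm.trans e2) i
    simp only at hr
    rw [hr, one_mul] at this
    exact this.symm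
  let ψ : A ℕ →+* D i :=
    { toFun := fun r => φ r i
      map_one' := h1
      map_zero' := by rw [map_zero]; rfl
      map_mul' := fun a b => by rw [map_mul]; rfl
      map_add' := fun a b => by rw [map_add]; rfl }
  exact image_comm (D i) ψ (hsurj i)

theorem nu_of_unital (R : Type) [Ring R] (h : IsSubdirectDiv R) : IsSubdirectDivNU R := by
  obtain ⟨I, D, inst, φ, hinj, hsurj⟩ := h
  exact ⟨I, D, inst, (φ : R →ₙ+* ((i : I) → D i)), hinj, hsurj⟩

theorem bad : ¬ IsSubdirectDiv (A ℕ) := fun h => bad_NU (nu_of_unital _ h)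

abbrev LF : Type := FractionRing (P ℂ)
noncomputable abbrev uL : LF := algebraMap (P ℂ) LF (MvPolynomial.C uB)
noncomputable abbrev vL : LF := algebraMap (P ℂ) LF (MvPolynomial.C vB)
abbrev H : Type := QuaternionAlgebra LF uL 0 vL

theorem isUnit_or_zero (q : H) : IsUnit q ∨ q = 0 := by
  by_cases hq : q = 0
  · exact Or.inr hq
  · left
    obtain ⟨r, h1, h2⟩ := unit_of_anis uL vL (fun x y z w h => anis_frac anis_B x y z w h) q hq
    exact ⟨⟨q, r, h1, h2⟩, rfl⟩

@[instance_reducible]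
noncomputable def divH : DivisionRing H := DivisionRing.ofIsUnitOrEqZero isUnit_or_zero

noncomputable def evP (g : ℂ → LF) : P ℂ →+* LF :=
  MvPolynomial.eval₂Hom ((algebraMap (P ℂ) LF).comp MvPolynomial.C) g

noncomputable def evA (g : ℂ → LF) : A ℂ →+* H :=
  mapQ (R := P ℂ) (S := LF) (a := MvPolynomial.C uB) (c := MvPolynomial.C vB) (a' := uL) (c' := vL)
    (evP g) (MvPolynomial.eval₂Hom_C _ _ _) (MvPolynomial.eval₂Hom_C _ _ _)

theorem evA_apply (g : ℂ → LF) (q : A ℂ) :
    evA g q = ⟨evP g q.re, evP g q.imI, evP g q.imJ, evP g q.imK⟩ := rfl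

theorem evA_surj (g : ℂ → LF) (hg : Function.Surjective g) : Function.Surjective (evA g) := by
  intro q
  obtain ⟨a, ha⟩ := hg q.re
  obtain ⟨b, hb⟩ := hg q.imI
  obtain ⟨c, hc⟩ := hg q.imJ
  obtain ⟨d, hd⟩ := hg q.imK
  refine ⟨⟨MvPolynomial.X a, MvPolynomial.X b, MvPolynomial.X c, MvPolynomial.X d⟩, ?_⟩
  rw [evA_apply]
  apply QuaternionAlgebra.ext
  · exact (MvPolynomial.eval₂Hom_X' _ _ _).trans ha
  · exact (MvPolynomial.eval₂Hom_X' _ _ _).trans hb
  · exact (MvPolynomial.eval₂Hom_X' _ _ _).trans hc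
  · exact (MvPolynomial.eval₂Hom_X' _ _ _).trans hd

theorem evP_rename {V : Finset ℂ} (g : ℂ → LF) (hg : ∀ y ∈ V, g y = algebraMap (P ℂ) LF (MvPolynomial.X y))
    (p : P {x // x ∈ V}) : evP g (MvPolynomial.rename (fun x : {x // x ∈ V} => (x : ℂ)) p) =
      algebraMap (P ℂ) LF (MvPolynomial.rename (fun x : {x // x ∈ V} => (x : ℂ)) p) := by
  have : (evP g).comp ((MvPolynomial.rename (fun x : {x // x ∈ V} => (x : ℂ)) : P {x // x ∈ V} →ₐ[B] P ℂ) :
      P {x // x ∈ V} →+* P ℂ) = (algebraMap (P ℂ) LF).comp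
      ((MvPolynomial.rename (fun x : {x // x ∈ V} => (x : ℂ)) : P {x // x ∈ V} →ₐ[B] P ℂ) :
      P {x // x ∈ V} →+* P ℂ) := by
    apply MvPolynomial.ringHom_ext
    · intro r
      simp only [RingHom.comp_apply, RingHom.coe_coe, MvPolynomial.rename_C]
      exact MvPolynomial.eval₂Hom_C _ _ _
    · intro i
      simp only [RingHom.comp_apply, RingHom.coe_coe, MvPolynomial.rename_X]
      exact (MvPolynomial.eval₂Hom_X' _ _ _).trans (hg i.1 i.2)
  exact congrArg (fun f : P {x // x ∈ V} →+* LF => f p) this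

theorem evA_ne {V : Finset ℂ} (g : ℂ → LF) (hg : ∀ y ∈ V, g y = algebraMap (P ℂ) LF (MvPolynomial.X y))
    (q : A {x // x ∈ V}) (h : evA g (mapA (fun x : {x // x ∈ V} => (x : ℂ)) q) = 0) :
    mapA (fun x : {x // x ∈ V} => (x : ℂ)) q = 0 := by
  have hinj : Function.Injective (algebraMap (P ℂ) LF) := IsFractionRing.injective (P ℂ) LF
  rw [evA_apply] at h
  have h1 := congrArg QuaternionAlgebra.re h
  have h2 := congrArg QuaternionAlgebra.imI h
  have h3 := congrArg QuaternionAlgebra.imJ h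
  have h4 := congrArg QuaternionAlgebra.imK h
  simp only [mapA_apply, evP_rename g hg] at h1 h2 h3 h4
  apply QuaternionAlgebra.ext
  · exact hinj (h1.trans (map_zero _).symm)
  · exact hinj (h2.trans (map_zero _).symm)
  · exact hinj (h3.trans (map_zero _).symm)
  · exact hinj (h4.trans (map_zero _).symm)

theorem good : IsSubdirectDiv (A ℂ) := by
  choose V q' hq' using fun q : A ℂ => mem_supp q
  choose g hg1 hg2 using exists_surj
  refine ⟨{a : A ℂ // a ≠ 0}, fun _ => H, fun _ => divH,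
    RingHom.pi (fun a => evA (g (V a.1))), ?_, ?_⟩
  · rw [injective_iff_map_eq_zero]
    intro a ha
    by_contra hne
    have h := congrFun ha ⟨a, hne⟩
    have h2 : evA (g (V a)) a = 0 := h
    rw [hq' a] at h2
    apply hne
    rw [hq' a]
    apply evA_ne (g (V a)) (hg1 (V a))
    convert h2 using 3
    rw [← hq' a]
  · intro a
    exact evA_surj _ (hg2 _)

theorem castInj : Function.Injective (fun n : ℕ => (n : ℂ)) := Nat.cast_injective

theorem unital : ¬ ∃ T : Language.ring.Theory, ∀ (R : Type) [Ring R] [FirstOrder.Ring.CompatibleRing R],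
    R ⊨ T ↔ IsSubdirectDiv R := by
  rintro ⟨T, hT⟩
  let i1 : FirstOrder.Ring.CompatibleRing (A ℕ) := FirstOrder.Ring.compatibleRingOfRing (A ℕ)
  let i2 : FirstOrder.Ring.CompatibleRing (A ℂ) := FirstOrder.Ring.compatibleRingOfRing (A ℂ)
  have h1 := hT (A ℕ)
  have h2 := hT (A ℂ)
  let f : A ℕ ↪[Language.ring] A ℂ :=
    { toFun := mapA (fun n : ℕ => (n : ℂ))
      inj' := mapA_inj _ castInj
      map_fun' := fun {n} g x => by
        cases g
        · exact map_add (mapA _) (x 0) (x 1)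
        · exact map_mul (mapA _) (x 0) (x 1)
        · exact map_neg (mapA _) (x 0)
        · exact map_zero (mapA _)
        · exact map_one (mapA _)
      map_rel' := fun {n} r => by cases r }
  have h3 : A ℕ ⊨ T ↔ A ℂ ⊨ T := by
    apply elem_equiv f
    intro s a
    obtain ⟨σ, hσ, b, hb⟩ := exists_aut (fun n : ℕ => (n : ℂ)) castInj s a
    refine ⟨{ σ.toEquiv with
      map_fun' := fun {n} g x => by
        cases g
        · exact map_add σ (x 0) (x 1)
        · exact map_mul σ (x 0) (x 1)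
        · exact map_neg σ (x 0)
        · exact map_zero σ
        · exact map_one σ
      map_rel' := fun {n} r => by cases r }, hσ, b, hb⟩
  exact bad (h1.1 (h3.2 (h2.2 good)))

theorem nonunital : ¬ ∃ T : rngLang.Theory, ∀ (R : Type) [NonUnitalRing R],
    (letI := rngStr R; R ⊨ T) ↔ IsSubdirectDivNU R := by
  rintro ⟨T, hT⟩
  let i1 : rngLang.Structure (A ℕ) := rngStr (A ℕ)
  let i2 : rngLang.Structure (A ℂ) := rngStr (A ℂ)
  have h1 := hT (A ℕ)
  have h2 := hT (A ℂ)
  let f : A ℕ ↪[rngLang] A ℂ :=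
    { toFun := mapA (fun n : ℕ => (n : ℂ))
      inj' := mapA_inj _ castInj
      map_fun' := fun {n} g x => by
        cases g
        · exact map_add (mapA _) (x 0) (x 1)
        · exact map_mul (mapA _) (x 0) (x 1)
        · exact map_neg (mapA _) (x 0)
        · exact map_zero (mapA _)
      map_rel' := fun {n} r => by cases r }
  have h3 : A ℕ ⊨ T ↔ A ℂ ⊨ T := by
    apply elem_equiv f
    intro s a
    obtain ⟨σ, hσ, b, hb⟩ := exists_aut (fun n : ℕ => (n : ℂ)) castInj s a
    refine ⟨{ σ.toEquiv with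
      map_fun' := fun {n} g x => by
        cases g
        · exact map_add σ (x 0) (x 1)
        · exact map_mul σ (x 0) (x 1)
        · exact map_neg σ (x 0)
        · exact map_zero σ
      map_rel' := fun {n} r => by cases r }, hσ, b, hb⟩
  exact bad_NU (h1.1 (h3.2 (h2.2 (nu_of_unital _ good))))

end Pool.Agent.MP_c671ed_lc
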